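import Pool.Agent.W211.AF.Stm2

set_option autoImplicit false

namespace Pool.Agent.W431.AFSys

open FreeGroup
open Pool.Agent.W211.AF
open Pool.Agent.Results.MP_11aa79_an.NotFactor
open Pool.Agent.Results.MP_11aa79_an.NotFactor.Kap
open Pool.Agent.Results.MP_11aa79_an.NotFactor.Main
open Pool.Agent.Results.MP_11aa79_an.NotFactor.Fac

lemma conv_supp {p q : FreeGroup (Fin 2) → ℂ} (hp : (Function.support p).Finite)
    (hq : (Function.support q).Finite) : (Function.support (convProd p q)).Finite := by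
  refine (hp.image2 (fun a b => a * b) hq).subset fun x hx => ?_
  rw [Function.mem_support] at hx
  by_contra hn
  refine hx ?_
  unfold convProd
  have : ∀ g, p g * q (g⁻¹ * x) = 0 := by
    intro g
    by_contra h
    refine hn ?_
    rw [mul_eq_zero, not_or] at h
    exact ⟨g, h.1, g⁻¹ * x, h.2, by simp⟩
  simp [this]

lemma zz_supp (A B : ℂ) : (Function.support (zz (0 : Fin 2) 1 A B)).Finite := by
  refine (Set.toFinite ({1, of 0, of 1} : Set (FreeGroup (Fin 2)))).subset fun x hx => ?_
  rw [Function.mem_support] at hx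
  by_contra hn
  simp only [Set.mem_insert_iff, Set.mem_singleton_iff, not_or] at hn
  refine hx ?_
  unfold zz
  simp [hn.1, hn.2.1, hn.2.2]

lemma RR_supp (A B : ℂ) {p q : FreeGroup (Fin 2) → ℂ} (hp : (Function.support p).Finite)
    (hq : (Function.support q).Finite) : (Function.support (RR A B p q)).Finite := by
  refine ((zz_supp A B).union (conv_supp hp hq)).subset fun x hx => ?_
  rw [Function.mem_support] at hx
  by_contra hn
  simp only [Set.mem_union, Function.mem_support, not_or, not_not] at hn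
  refine hx ?_
  unfold RR
  rw [hn.1, hn.2, sub_zero]

lemma zz_sum (A B : ℂ) (hAB : A + B = 1) : ∑' u, zz (0 : Fin 2) 1 A B u = 0 := by
  have h := tsum_zz (i := (0 : Fin 2)) (j := 1) (by decide) A B (fun _ => 1) 1
  simp only [mul_one] at h
  rw [h]
  linear_combination -hAB

lemma RR_sum (A B : ℂ) (hAB : A + B = 1) {p q : FreeGroup (Fin 2) → ℂ}
    (hp : (Function.support p).Finite) (hq : (Function.support q).Finite)
    (hp0 : InI0 p) (hq0 : InI0 q) : ∑' u, RR A B p q u = 0 := by
  unfold RR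
  rw [Summable.tsum_sub (summable_of_finite_support (zz_supp A B))
    (summable_of_finite_support (conv_supp hp hq)), zz_sum A B hAB]
  have : ∑' b, convProd p q b = 0 := by
    have h := tsum_cv hp0.1 hq0.1
    rw [hp0.2, zero_mul] at h
    exact h
  rw [this, sub_zero]

theorem main : S_SYS := by
  classical
  intro hID1 hTAU hID2 A B hAB hA hB p q hp hq hp0 hq0 hsm k hk
  set R := RR A B p q with hR
  have hRs : (Function.support R).Finite := RR_supp A B hp hq
  have hRn : (Function.support fun s => ‖R s‖).Finite := by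
    refine hRs.subset fun x hx => ?_
    rw [Function.mem_support] at hx ⊢
    intro h
    exact hx (by rw [h, norm_zero])
  set r : G →₀ ℝ := Finsupp.ofSupportFinite (fun s => ‖R s‖) hRn with hr
  have hrs : ∀ s, r s = ‖R s‖ := fun s => rfl
  -- sums
  have rsum : ∀ Φ : G → ℝ, (r.sum fun s c => c * Φ s) = ∑ s ∈ hRs.toFinset, ‖R s‖ * Φ s := by
    intro Φ
    refine Finsupp.sum_of_support_subset r (fun x hx => ?_) _ (fun i _ => zero_mul _)
    rw [Finsupp.mem_support_iff, hrs] at hx
    rw [Set.Finite.mem_toFinset, Function.mem_support]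
    intro h
    exact hx (by rw [h, norm_zero])
  have rts : ∀ (φ : G → ℂ), ‖∑' s, R s * φ s‖ ≤ r.sum fun s c => c * ‖φ s‖ := by
    intro φ
    rw [rsum, tsum_eq_sum (s := hRs.toFinset)]
    · refine (norm_sum_le _ _).trans (le_of_eq ?_)
      exact Finset.sum_congr rfl fun s _ => norm_mul _ _
    · intro s hs
      rw [Set.Finite.mem_toFinset, Function.mem_support, not_not] at hs
      rw [hs, zero_mul]
  have h5 : (0 : ℝ) ≤ 5 := by norm_num
  have hinv : ∀ (a g : G), (a * g)⁻¹ = g⁻¹ * a⁻¹ := fun a g => mul_inv_rev a g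
  refine ⟨fun g => ‖tau q (0 : Fin 2) g⁻¹‖, r, ?_⟩
  refine ⟨?_, ?_, fun g => norm_nonneg _, fun g => norm_nonneg _, fun g => norm_nonneg _,
    fun g => ?_, ?_, ?_, ?_, ?_, ?_, ?_, ?_, ?_⟩
  · have : (2236 / 1000 : ℝ) ≤ Real.sqrt 5 := Real.le_sqrt_of_sq_le (by norm_num)
    linarith
  · have : Real.sqrt 5 ≤ 22364 / 10000 := by
      rw [Real.sqrt_le_left (by norm_num)]
      norm_num
    linarith
  · rw [hrs]; exact norm_nonneg _
  · have h := (memH_iff _).1 (lp.memℓp k)
    exact ((Equiv.inv G).summable_iff (f := fun x => ‖k x‖ ^ 2)).2 h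
  · exact ((Equiv.inv G).summable_iff (f := fun x => ‖q x‖)).2 hq0.1
  · have h : Summable fun x => ‖tau q (0 : Fin 2) x‖ := by
      refine summable_of_finite_support ((hTAU q hq hq0.2).1.subset fun x hx => ?_)
      rw [Function.mem_support] at hx ⊢
      intro h
      exact hx (by rw [h, norm_zero])
    exact ((Equiv.inv G).summable_iff (f := fun x => ‖tau q (0 : Fin 2) x‖)).2 h
  · have h1 := rsum (fun _ => 1)
    simp only [mul_one] at h1
    rw [h1]
    have h2 : ∑' g, ‖convProd p q g - zz (0 : Fin 2) 1 A B g‖ = ∑ s ∈ hRs.toFinset, ‖R s‖ := by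
      have h3 : ∀ g, ‖convProd p q g - zz (0 : Fin 2) 1 A B g‖ = ‖R g‖ := by
        intro g
        rw [← norm_neg, neg_sub]
        rfl
      simp only [h3]
      refine tsum_eq_sum fun s hs => ?_
      rw [Set.Finite.mem_toFinset, Function.mem_support, not_not] at hs
      rw [hs, norm_zero]
    rw [← h2]
    exact hsm.le
  · intro g
    have e := hID1 A B p q hp hq k hk g⁻¹
    have e2 := rts (fun s => k (g⁻¹ * s⁻¹))
    simp only [hinv]
    rw [e]
    refine (norm_add_le _ _).trans (add_le_add ((norm_add_le _ _).trans ?_) e2)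
    have e3 := norm_add_le (q g⁻¹) (A * k (g⁻¹ * (of 0)⁻¹))
    rw [norm_mul, hA] at e3
    rw [norm_mul, hB]
    linarith
  · intro g
    have e := hID1 A B p q hp hq k hk g⁻¹
    have e2 := rts (fun s => k (g⁻¹ * s⁻¹))
    simp only [hinv]
    have e4 : A * k (g⁻¹ * (of 0)⁻¹) = k g⁻¹ - q g⁻¹ - B * k (g⁻¹ * (of 1)⁻¹) -
        ∑' s, RR A B p q s * k (g⁻¹ * s⁻¹) := by
      linear_combination -e
    rw [← hA, ← norm_mul, e4]
    have e5 := norm_sub_le (k g⁻¹ - q g⁻¹ - B * k (g⁻¹ * (of 1)⁻¹))
      (∑' s, RR A B p q s * k (g⁻¹ * s⁻¹))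
    have e6 := norm_sub_le (k g⁻¹ - q g⁻¹) (B * k (g⁻¹ * (of 1)⁻¹))
    have e7 := norm_sub_le (k g⁻¹) (q g⁻¹)
    rw [norm_mul, hB, ← hA] at e6
    linarith
  · intro g
    have e := hID1 A B p q hp hq k hk g⁻¹
    have e2 := rts (fun s => k (g⁻¹ * s⁻¹))
    simp only [hinv]
    have e4 : B * k (g⁻¹ * (of 1)⁻¹) = k g⁻¹ - q g⁻¹ - A * k (g⁻¹ * (of 0)⁻¹) -
        ∑' s, RR A B p q s * k (g⁻¹ * s⁻¹) := by
      linear_combination -e
    rw [← hB, ← norm_mul, e4]
    have e5 := norm_sub_le (k g⁻¹ - q g⁻¹ - A * k (g⁻¹ * (of 0)⁻¹))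
      (∑' s, RR A B p q s * k (g⁻¹ * s⁻¹))
    have e6 := norm_sub_le (k g⁻¹ - q g⁻¹) (A * k (g⁻¹ * (of 0)⁻¹))
    have e7 := norm_sub_le (k g⁻¹) (q g⁻¹)
    rw [norm_mul, hA, ← hB] at e6
    linarith
  · intro g
    have e := hID2 hTAU A B hAB p q hp hq hp0 hq0 k hk g⁻¹
    obtain ⟨hT1, hT2⟩ := hTAU R hRs (RR_sum A B hAB hp hq hp0 hq0)
    simp only [hinv]
    rw [← hA, ← norm_mul, e]
    have e5 : ‖∑' g', tau (RR A B p q) (0 : Fin 2) g' * k (g⁻¹ * g'⁻¹)‖ ≤
        r.sum fun s c => c * ∑ i ∈ Finset.range (s.toWord.length + 1),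
          ‖k (g⁻¹ * (mk (s.toWord.take i))⁻¹)‖ := by
      rw [rsum, tsum_eq_sum (s := hT1.toFinset)]
      · have s1 : ∀ g' : G, ‖tau R (0 : Fin 2) g'‖ ≤ ∑ s ∈ hRs.toFinset, ‖R s‖ *
            ∑ i ∈ Finset.range (s.toWord.length + 1),
              (if g' = mk (s.toWord.take i) then 1 else 0) := by
          intro g'
          refine (hT2 g').trans ?_
          rw [tsum_eq_sum (s := hRs.toFinset)]
          · refine Finset.sum_le_sum fun s _ => mul_le_mul_of_nonneg_left ?_ (norm_nonneg _)
            split_ifs with h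
            · obtain ⟨i, hi, hi'⟩ := h
              have := Finset.single_le_sum (s := Finset.range (s.toWord.length + 1))
                (f := fun i => if g' = mk (s.toWord.take i) then (1 : ℝ) else 0)
                (fun _ _ => by split_ifs <;> norm_num) (Finset.mem_range.2 (Nat.lt_succ_of_le hi))
              simp only [if_pos hi'] at this
              exact this
            · exact Finset.sum_nonneg fun _ _ => by split_ifs <;> norm_num
          · intro s hs
            rw [Set.Finite.mem_toFinset, Function.mem_support, not_not] at hs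
            rw [hs, norm_zero, zero_mul]
        calc ‖∑ g' ∈ hT1.toFinset, tau (RR A B p q) (0 : Fin 2) g' * k (g⁻¹ * g'⁻¹)‖
            ≤ ∑ g' ∈ hT1.toFinset, ‖tau R (0 : Fin 2) g'‖ * ‖k (g⁻¹ * g'⁻¹)‖ := by
              refine (norm_sum_le _ _).trans (le_of_eq ?_)
              exact Finset.sum_congr rfl fun s _ => norm_mul _ _
          _ ≤ ∑ g' ∈ hT1.toFinset, (∑ s ∈ hRs.toFinset, ‖R s‖ *
            ∑ i ∈ Finset.range (s.toWord.length + 1),
              (if g' = mk (s.toWord.take i) then 1 else 0)) * ‖k (g⁻¹ * g'⁻¹)‖ :=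
              Finset.sum_le_sum fun g' _ => mul_le_mul_of_nonneg_right (s1 g') (norm_nonneg _)
          _ = ∑ s ∈ hRs.toFinset, ‖R s‖ * ∑ i ∈ Finset.range (s.toWord.length + 1),
              ∑ g' ∈ hT1.toFinset, (if g' = mk (s.toWord.take i) then 1 else 0) *
                ‖k (g⁻¹ * g'⁻¹)‖ := by
              simp only [Finset.sum_mul]
              rw [Finset.sum_comm]
              refine Finset.sum_congr rfl fun s _ => ?_
              rw [Finset.sum_comm' (t' := hT1.toFinset)
                (s' := fun _ => Finset.range (s.toWord.length + 1)) (by simp [and_comm])]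
              rw [Finset.mul_sum]
              refine Finset.sum_congr rfl fun g' _ => ?_
              rw [mul_assoc, Finset.sum_mul]
          _ ≤ ∑ s ∈ hRs.toFinset, ‖R s‖ * ∑ i ∈ Finset.range (s.toWord.length + 1),
              ‖k (g⁻¹ * (mk (s.toWord.take i))⁻¹)‖ := by
              refine Finset.sum_le_sum fun s _ => mul_le_mul_of_nonneg_left
                (Finset.sum_le_sum fun i _ => ?_) (norm_nonneg _)
              simp only [ite_mul, one_mul, zero_mul]
              rw [Finset.sum_ite_eq']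
              split_ifs
              · exact le_rfl
              · exact norm_nonneg _
      · intro g' hg'
        rw [Set.Finite.mem_toFinset, Function.mem_support, not_not] at hg'
        rw [hR] at hg'
        rw [hg', zero_mul]
    have e6 := norm_sub_le (-tau q (0 : Fin 2) g⁻¹)
      (∑' g', tau (RR A B p q) (0 : Fin 2) g' * k (g⁻¹ * g'⁻¹))
    rw [norm_neg] at e6
    linarith

end Pool.Agent.W431.AFSys
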