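import Pool.Agent.W893.EV.Stm

set_option autoImplicit false

/-! Part ALT of project EV (owner helper893). -/

namespace Pool.Agent.W431.EVALT

open Finset Pool.Agent.W893.EV

/-- a permutation in the alternating group taking `A` to `B` -/
theorem exists_even {n : ℕ} (hn : 3 ≤ n) (A B : Finset (Fin n)) (h : #A = #B) :
    ∃ σ ∈ alternatingGroup (Fin n), ∀ i, i ∈ A ↔ σ i ∈ B := by
  classical
  let e : {x // x ∈ A} ≃ {x // x ∈ B} := Finset.equivOfCardEq h
  let τ : Equiv.Perm (Fin n) := Equiv.extendSubtype (p := fun x => x ∈ A) (q := fun x => x ∈ B) e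
  have hτ : ∀ i, i ∈ A ↔ τ i ∈ B := by
    intro i
    constructor
    · intro hi
      exact Equiv.extendSubtype_mem (p := fun x => x ∈ A) (q := fun x => x ∈ B) e i hi
    · intro hi
      by_contra hc
      exact Equiv.extendSubtype_not_mem (p := fun x => x ∈ A) (q := fun x => x ∈ B) e i hc hi
  -- two points both in `A` or both outside
  have hab : ∃ a b : Fin n, a ≠ b ∧ (a ∈ A ↔ b ∈ A) := by
    let x : Fin n := ⟨0, by omega⟩
    let y : Fin n := ⟨1, by omega⟩
    let z : Fin n := ⟨2, by omega⟩
    have hxy : x ≠ y := by simp [x, y]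
    have hxz : x ≠ z := by simp [x, z]
    have hyz : y ≠ z := by simp [y, z]
    by_cases h1 : x ∈ A <;> by_cases h2 : y ∈ A <;> by_cases h3 : z ∈ A
    · exact ⟨x, y, hxy, by tauto⟩
    · exact ⟨x, y, hxy, by tauto⟩
    · exact ⟨x, z, hxz, by tauto⟩
    · exact ⟨y, z, hyz, by tauto⟩
    · exact ⟨y, z, hyz, by tauto⟩
    · exact ⟨x, z, hxz, by tauto⟩
    · exact ⟨x, y, hxy, by tauto⟩
    · exact ⟨x, y, hxy, by tauto⟩
  rcases Int.units_eq_one_or (Equiv.Perm.sign τ) with hs | hs
  · exact ⟨τ, Equiv.Perm.mem_alternatingGroup.2 hs, hτ⟩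
  · obtain ⟨a, b, hne, hiff⟩ := hab
    refine ⟨τ * Equiv.swap a b, ?_, ?_⟩
    · rw [Equiv.Perm.mem_alternatingGroup, Equiv.Perm.sign_mul, hs, Equiv.Perm.sign_swap hne]
      decide
    · intro i
      rw [Equiv.Perm.mul_apply, ← hτ]
      by_cases h1 : i = a
      · subst h1; rw [Equiv.swap_apply_left]; exact hiff
      · by_cases h2 : i = b
        · subst h2; rw [Equiv.swap_apply_right]; exact hiff.symm
        · rw [Equiv.swap_apply_of_ne_of_ne h1 h2]

theorem ALT_proof : Pool.Agent.W893.EV.ALT := by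
  classical
  intro n hn G hG f hf
  obtain ⟨hmono, ⟨x0, y0, hxy⟩, hinv⟩ := hf
  -- `f (ind A)` depends only on the size
  have hcard : ∀ A B : Finset (Fin n), #A = #B → f (ind A) = f (ind B) := by
    intro A B h
    obtain ⟨σ, hσ, hσ'⟩ := exists_even hn A B h
    have h1 := hinv σ (hG hσ) (ind B)
    rw [← h1]
    congr 1
    funext i
    simp only [ind, Function.comp_apply]
    exact decide_eq_decide.2 (hσ' i)
  have hindmono : ∀ A B : Finset (Fin n), A ⊆ B → f (ind A) = true → f (ind B) = true := by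
    intro A B h hA
    have h1 : ind A ≤ ind B := by
      intro i
      simp only [ind]
      by_cases hi : i ∈ A
      · simp [hi, h hi]
      · simp [hi]
    have h2 := hmono h1
    rw [hA] at h2
    exact top_le_iff.1 h2
  have hall : ∀ x : Fin n → Bool, x = ind (univ.filter fun i => x i = true) := by
    intro x
    funext i
    simp [ind]
  have h0 : f (ind ∅) = false := by
    by_contra hc
    have hc' : f (ind ∅) = true := by simpa using hc
    have : ∀ x, f x = true := fun x => by
      rw [hall x]; exact hindmono _ _ (empty_subset _) hc'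
    exact hxy (by rw [this x0, this y0])
  have hu : f (ind univ) = true := by
    by_contra hc
    have : ∀ x, f x = false := fun x => by
      rw [hall x]
      by_contra h1
      have h1' : f (ind (univ.filter fun i => x i = true)) = true := by simpa using h1
      exact hc (hindmono _ _ (subset_univ _) h1')
    exact hxy (by rw [this x0, this y0])
  -- the threshold
  let Q : ℕ → Prop := fun k => ∃ A : Finset (Fin n), #A = k ∧ f (ind A) = true
  have hQ : ∃ k, Q k := ⟨n, univ, by simp, hu⟩
  let t := Nat.find hQ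
  obtain ⟨A0, hA0, hfA0⟩ := Nat.find_spec hQ
  have hA0' : #A0 = t := hA0
  have ht1 : 1 ≤ t := by
    by_contra hc
    have : t = 0 := by omega
    rw [this, card_eq_zero] at hA0'
    rw [hA0'] at hfA0
    rw [h0] at hfA0
    exact Bool.noConfusion hfA0
  have htn : t ≤ n := Nat.find_min' hQ ⟨univ, by simp, hu⟩
  have hval : ∀ A : Finset (Fin n), (f (ind A) = true ↔ t ≤ #A) := by
    intro A
    constructor
    · intro h
      exact Nat.find_min' hQ ⟨A, rfl, h⟩
    · intro h
      obtain ⟨C, hC, hC'⟩ := exists_subset_card_eq h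
      exact hindmono C A hC ((hcard C A0 (by rw [hC', hA0'])).trans hfA0)
  have hsum : ∑ A : Finset (Fin n), (-1 : ℤ) ^ #A * (if f (ind A) = true then 1 else 0) =
      ∑ m ∈ range (n + 1), (n.choose m) • ((-1 : ℤ) ^ m * (if t ≤ m then 1 else 0)) := by
    have h1 := sum_powerset_apply_card (fun m : ℕ => ((-1 : ℤ) ^ m * (if t ≤ m then 1 else 0)))
      (x := (univ : Finset (Fin n)))
    rw [powerset_univ, card_univ, Fintype.card_fin] at h1
    rw [← h1]
    refine sum_congr rfl fun A _ => ?_
    simp only [hval A]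
  have hfull : ∑ m ∈ range (n + 1), ((-1 : ℤ) ^ m * (n.choose m : ℤ)) = 0 :=
    Int.alternating_sum_range_choose_of_ne (by omega)
  have hpart : ∑ m ∈ range ((t - 1) + 1), ((-1 : ℤ) ^ m * (n.choose m : ℤ)) =
      (-1) ^ (t - 1) * ((n - 1).choose (t - 1) : ℤ) := by
    have hnn : n = (n - 1) + 1 := by omega
    have := Int.alternating_sum_range_choose_eq_choose (n := n - 1) (m := t - 1)
    rw [← hnn] at this
    exact this
  have hsplit : ∑ m ∈ range (n + 1), (n.choose m) • ((-1 : ℤ) ^ m * (if t ≤ m then 1 else 0)) =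
      ∑ m ∈ range (n + 1), ((-1 : ℤ) ^ m * (n.choose m : ℤ)) -
        ∑ m ∈ range ((t - 1) + 1), ((-1 : ℤ) ^ m * (n.choose m : ℤ)) := by
    have hsub : range ((t - 1) + 1) = (range (n + 1)).filter (fun m => ¬ t ≤ m) := by
      ext m
      simp only [mem_range, mem_filter, not_le]
      omega
    rw [hsub, sum_filter, ← sum_sub_distrib]
    refine sum_congr rfl fun m _ => ?_
    by_cases h : t ≤ m
    · simp [h, mul_comm]
    · simp [h]
  rw [hsum, hsplit, hfull, hpart, zero_sub, neg_ne_zero]
  have hch : ((n - 1).choose (t - 1) : ℤ) ≠ 0 := by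
    have : 0 < (n - 1).choose (t - 1) := Nat.choose_pos (by omega)
    exact_mod_cast this.ne'
  exact mul_ne_zero (pow_ne_zero _ (by norm_num)) hch

end Pool.Agent.W431.EVALT
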