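import Pool.Agent.W983.PL.Stm

set_option autoImplicit false
open Set Topology

namespace Pool.Agent.W431.PCD1D

open Pool.Agent.W983.PL

lemma nl (hA : S_ARC) {p a b c d : ℝ} (h1 : p ≤ a) (h2 : a < b) (h3 : b ≤ p + 1) (h4 : p ≤ c)
    (h5 : c < d) (h6 : d ≤ p + 1) (h7 : b < a + 1) (h8 : d < c + 1)
    (h9 : ¬ (a < c ∧ c < b ∧ b < d)) (h10 : ¬ (c < a ∧ a < d ∧ d < b)) :
    ¬ Linked (E a) (E b) (E c) (E d) := by
  by_cases n1 : a ≤ c ∧ d ≤ b
  · exact (hA a b h2 h7 (E c) ⟨c, ⟨n1.1, by linarith [n1.2]⟩, rfl⟩ (E d)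
      ⟨d, ⟨by linarith [n1.1], n1.2⟩, rfl⟩ (E a) ⟨a + 1, ⟨h7.le, le_rfl⟩, E_add_one a⟩ (E b)
      ⟨b, ⟨le_rfl, h7.le⟩, rfl⟩).2
  by_cases n2 : c ≤ a ∧ b ≤ d
  · exact (hA c d h5 h8 (E a) ⟨a, ⟨n2.1, by linarith [n2.2]⟩, rfl⟩ (E b)
      ⟨b, ⟨by linarith [n2.1], n2.2⟩, rfl⟩ (E c) ⟨c + 1, ⟨h8.le, le_rfl⟩, E_add_one c⟩ (E d)
      ⟨d, ⟨le_rfl, h8.le⟩, rfl⟩).1
  by_cases n3 : b ≤ c
  · exact (hA a b h2 h7 (E a) ⟨a, ⟨le_rfl, h2.le⟩, rfl⟩ (E b) ⟨b, ⟨h2.le, le_rfl⟩, rfl⟩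
      (E c) ⟨c, ⟨n3, by linarith⟩, rfl⟩ (E d) ⟨d, ⟨by linarith, by linarith⟩, rfl⟩).1
  by_cases n4 : d ≤ a
  · exact (hA c d h5 h8 (E c) ⟨c, ⟨le_rfl, h5.le⟩, rfl⟩ (E d) ⟨d, ⟨h5.le, le_rfl⟩, rfl⟩
      (E a) ⟨a, ⟨n4, by linarith⟩, rfl⟩ (E b) ⟨b, ⟨by linarith, by linarith⟩, rfl⟩).2
  exfalso
  push Not at n1 n2 n3 n4
  rcases lt_trichotomy a c with h | h | h
  · exact h9 ⟨h, n3, n1 h.le⟩
  · have := n1 h.le
    have := n2 h.ge
    linarith
  · exact h10 ⟨h, n4, n2 h.le⟩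

theorem t_D1D (hP : S_POS) (hA : S_ARC) : S_D1D := by
  intro F g Z η ρ ψ 𝓐 𝓑 hD I hI J hJ
  obtain ⟨-, -, hη, hρ, he, hr, -⟩ := hP F Z η ρ hD.gen.lift hD.cuts
  have hη' : StrictMono η := strictMono_nat_of_lt_succ hη
  have hρ' : StrictAnti ρ := strictAnti_nat_of_succ_lt hρ
  have hη0 : ∀ k, η 0 ≤ η k := fun k => hη'.monotone (Nat.zero_le k)
  have hρ0 : ∀ k, ρ k ≤ ρ 0 := fun k => hρ'.antitone (Nat.zero_le k)
  have e0 := he 0
  have r0 := hr 0
  have hAr := hD.fa.rng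
  have hBr := hD.fb.rng
  rcases hI with (⟨k, rfl⟩ | hI) | hI
  · have ek := he k
    have rk := hr k
    rcases hJ with (⟨j, rfl⟩ | hJ) | hJ
    · have ej := he j
      have rj := hr j
      have hkj : (η k ≤ η j ∧ ρ j ≤ ρ k) ∨ (η j ≤ η k ∧ ρ k ≤ ρ j) := by
        rcases le_total k j with h | h
        · exact Or.inl ⟨hη'.monotone h, hρ'.antitone h⟩
        · exact Or.inr ⟨hη'.monotone h, hρ'.antitone h⟩
      refine nl hA (p := 0) (by linarith) (by linarith) (by linarith) (by linarith) (by linarith)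
        (by linarith) (by linarith) (by linarith) ?_ ?_
      · rintro ⟨h1, h2, h3⟩
        rcases hkj with h | h <;> linarith [h.1, h.2]
      · rintro ⟨h1, h2, h3⟩
        rcases hkj with h | h <;> linarith [h.1, h.2]
    · obtain ⟨a1, a2, a3, -, -⟩ := hAr J hJ
      have h1 := hη0 k
      have h2 := hρ0 k
      refine nl hA (p := ρ 0 - 1) (by linarith) (by linarith) (by linarith) (by linarith)
        (by linarith) (by linarith) (by linarith) (by linarith) ?_ ?_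
      · rintro ⟨h1, h2, h3⟩; linarith
      · rintro ⟨h1, h2, h3⟩; linarith
    · obtain ⟨a1, a2, a3, -, -⟩ := hBr J hJ
      refine nl hA (p := 0) (by linarith) (by linarith) (by linarith) (by linarith)
        (by linarith) (by linarith) (by linarith) (by linarith) ?_ ?_
      · rintro ⟨h1, h2, h3⟩; linarith
      · rintro ⟨h1, h2, h3⟩; linarith
  · obtain ⟨a1, a2, a3, -, -⟩ := hAr I hI
    rcases hJ with (⟨k, rfl⟩ | hJ) | hJ
    · have ek := he k
      have rk := hr k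
      have h1 := hη0 k
      have h2 := hρ0 k
      refine nl hA (p := ρ 0 - 1) (by linarith) (by linarith) (by linarith) (by linarith)
        (by linarith) (by linarith) (by linarith) (by linarith) ?_ ?_
      · rintro ⟨h1, h2, h3⟩; linarith
      · rintro ⟨h1, h2, h3⟩; linarith
    · obtain ⟨b1, b2, b3, -, -⟩ := hAr J hJ
      exact nl hA (p := ρ 0 - 1) (by linarith) (by linarith) (by linarith) (by linarith)
        (by linarith) (by linarith) (by linarith) (by linarith) (hD.fa.lam I hI J hJ)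
        (hD.fa.lam J hJ I hI)
    · obtain ⟨b1, b2, b3, -, -⟩ := hBr J hJ
      refine nl hA (p := ρ 0 - 1) (by linarith) (by linarith) (by linarith) (by linarith)
        (by linarith) (by linarith) (by linarith) (by linarith) ?_ ?_
      · rintro ⟨h1, h2, h3⟩; linarith
      · rintro ⟨h1, h2, h3⟩; linarith
  · obtain ⟨a1, a2, a3, -, -⟩ := hBr I hI
    rcases hJ with (⟨k, rfl⟩ | hJ) | hJ
    · have ek := he k
      have rk := hr k
      refine nl hA (p := 0) (by linarith) (by linarith) (by linarith) (by linarith)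
        (by linarith) (by linarith) (by linarith) (by linarith) ?_ ?_
      · rintro ⟨h1, h2, h3⟩; linarith
      · rintro ⟨h1, h2, h3⟩; linarith
    · obtain ⟨b1, b2, b3, -, -⟩ := hAr J hJ
      refine nl hA (p := ρ 0 - 1) (by linarith) (by linarith) (by linarith) (by linarith)
        (by linarith) (by linarith) (by linarith) (by linarith) ?_ ?_
      · rintro ⟨h1, h2, h3⟩; linarith
      · rintro ⟨h1, h2, h3⟩; linarith
    · obtain ⟨b1, b2, b3, -, -⟩ := hBr J hJ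
      exact nl hA (p := 0) (by linarith) (by linarith) (by linarith) (by linarith)
        (by linarith) (by linarith) (by linarith) (by linarith) (hD.fb.lam I hI J hJ)
        (hD.fb.lam J hJ I hI)

end Pool.Agent.W431.PCD1D
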